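import Pool.Agent.Helper65.HCS.Goals
import Pool.Agent.Helper83.HC.LSV

/-!
# Circuits of unbounded size: the acceptance function is computed in linear space
-/

namespace Pool.Agent.Helper83.HCS

open Pool.Agent.Helper65.LinSpace Pool.Agent.Helper78.Mpc Pool.Agent.Helper28.Ram Finset
open Pool.Agent.Helper65.HCS Pool.Agent.Helper65
open Pool.Agent.Helper31.SusD (itr)

theorem lt01_le (a b : ℕ) : lt01 a b ≤ 1 := by
  unfold lt01
  split_ifs <;> omega

theorem eq01_le (a b : ℕ) : eq01 a b ≤ 1 := by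
  unfold eq01
  split_ifs <;> omega

theorem mul_le_one {a b : ℕ} (ha : a ≤ 1) (hb : b ≤ 1) : a * b ≤ 1 :=
  (Nat.mul_le_mul ha hb).trans (by norm_num)

theorem accN_le (v : ℕ) : accN v ≤ 1 := by
  unfold accN
  exact mul_le_one (lt01_le _ _) (by omega)

theorem bad_le (P : Prm) (r c τ d i : ℕ) : P.bad r c τ d i ≤ 1 := by
  unfold Prm.bad ifz
  split_ifs
  · exact Nat.sub_le _ _
  · exact Nat.zero_le _

theorem chk_le (P : Prm) (r c τ d : ℕ) : P.chk r c τ d ≤ 1 := by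
  unfold Prm.chk
  exact mul_le_one (lt01_le _ _) (mul_le_one (lt01_le _ _) (mul_le_one (lt01_le _ _)
    (mul_le_one (eq01_le _ _) (eq01_le _ _))))

theorem ac_le (P : Prm) (r c τ : ℕ) : P.ac r c τ ≤ 1 := by
  unfold Prm.ac
  exact mul_le_one (lt01_le _ _) (mul_le_one (eq01_le _ _) (accN_le _))

theorem pre_lt (P : Prm) (c i : ℕ) : P.pre c i < 2 ^ (P.S + 1) := by
  unfold Prm.pre ifz
  split_ifs
  · exact Nat.one_lt_two_pow (by omega)
  · exact capN_lt _ _

theorem sta_lt (P : Prm) (v : ℕ → ℕ) (c τ i : ℕ) : P.sta v c τ i < 2 ^ (P.S + 1) := by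
  unfold Prm.sta
  cases τ with
  | zero => exact pre_lt P c i
  | succ τ =>
    rw [nrec_succ]
    exact capN_lt _ _

section

variable {α : Type} [Ctx α] {c₀ : ℕ} {e x y T : α → ℕ}

theorem ls_sta (h : LSP_stmt) (hW : LSW_stmt) (he : LS e) (hx : LS x) (hy : LS y) (hT : LS T)
    {v : α → ℕ → ℕ} (hv : LS (fun z : α × ℕ => v z.1 z.2)) {c τ i : α → ℕ} (hc : LS c)
    (hτ : LS τ) (hi : LS i) :
    LS (fun z => (prm c₀ (e z) (x z) (y z) (T z)).sta (v z) (c z) (τ z) (i z)) := by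
  obtain ⟨-, -, -, -, h5, -⟩ := h c₀ he hx hy hT
  have hm := (hW c₀ he hx hy hT hc).1
  unfold Prm.sta
  refine LS.nrec (G := fun z => (prm c₀ (e z) (x z) (y z) (T z)).pre (c z) (i z)) (N := τ)
    (C := fun z => 2 ^ ((prm c₀ (e z) (x z) (y z) (T z)).win (c z)).σ)
    (K := fun z t q => (prm c₀ (e z) (x z) (y z) (T z)).step (i z)
      ((prm c₀ (e z) (x z) (y z) (T z)).ct (c z) + t) q (v z t))
    (h5 hc hi) hτ (Pool.Agent.Helper83.HC.ls_powσ hm) ?_ ?_
  · obtain ⟨k1, -, -, k4, -⟩ := h c₀ (α := α × ℕ × ℕ) (e := fun z => e z.1) (x := fun z => x z.1)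
      (y := fun z => y z.1) (T := fun z => T z.1) (by fun_prop) (by fun_prop) (by fun_prop)
      (by fun_prop)
    have k5 := (k4 (c := fun z : α × ℕ × ℕ => c z.1) (by fun_prop)).1
    exact k1 (i := fun z => i z.1) (q := fun z => z.2.2) (by fun_prop)
      (LS.add k5 (by fun_prop)) (by fun_prop)
      (LS.comp (g := fun z : α × ℕ => v z.1 z.2) (f := fun z : α × ℕ × ℕ => (z.1, z.2.1)) hv
        (by fun_prop))
  · intro z j _
    exact (sta_lt (prm c₀ (e z) (x z) (y z) (T z)) (v z) (c z) j (i z)).le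

theorem ls_sim (hW : LSW_stmt) (he : LS e) (hx : LS x) (hy : LS y) (hT : LS T)
    {c i : α → ℕ} (hc : LS c) (hi : LS i) :
    LS (fun z => ((prm c₀ (e z) (x z) (y z) (T z)).win (c z)).sim (i z)) := by
  have hm := hW c₀ he hx hy hT hc
  exact Pool.Agent.Helper83.HC.lsv hx hi hm.1 hm.2

theorem ls_stas (h : LSP_stmt) (hW : LSW_stmt) (he : LS e) (hx : LS x) (hy : LS y) (hT : LS T)
    {c τ i : α → ℕ} (hc : LS c) (hτ : LS τ) (hi : LS i) :
    LS (fun z => (prm c₀ (e z) (x z) (y z) (T z)).sta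
      ((prm c₀ (e z) (x z) (y z) (T z)).win (c z)).sim (c z) (τ z) (i z)) := by
  refine ls_sta h hW he hx hy hT
    (v := fun z => ((prm c₀ (e z) (x z) (y z) (T z)).win (c z)).sim) ?_ hc hτ hi
  exact ls_sim (α := α × ℕ) hW (e := fun z => e z.1) (x := fun z => x z.1)
    (y := fun z => y z.1) (T := fun z => T z.1) (c := fun z => c z.1) (i := fun z => z.2)
    (by fun_prop) (by fun_prop) (by fun_prop) (by fun_prop) (by fun_prop) (by fun_prop)

theorem ls_bad (h : LSP_stmt) (hW : LSW_stmt) (he : LS e) (hx : LS x) (hy : LS y) (hT : LS T)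
    {r c τ d i : α → ℕ} (hr : LS r) (hc : LS c) (hτ : LS τ) (hd : LS d) (hi : LS i) :
    LS (fun z => (prm c₀ (e z) (x z) (y z) (T z)).bad (r z) (c z) (τ z) (d z) (i z)) := by
  obtain ⟨-, -, h3, h4, -⟩ := h c₀ he hx hy hT
  have h5 := h4 hd
  have h6 := ls_stas (c₀ := c₀) h hW he hx hy hT hc hτ hi
  have h7 : LS (fun z => letN (catN (x z) (y z)) (i z)) := LS.letN (LS.catN hx hy) hi
  unfold Prm.bad
  exact LS.ifz (LS.add (LS.lt01 hi h5.1) (LS.add (LS.lt01 hr hi) h7))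
    (LS.sub (LS.const 1) (LS.mul (LS.lt01 (LS.const 0) h6) (LS.eq01 h6 (h3 h5.2 hi))))
    (LS.const 0)

theorem ls_chk (h : LSP_stmt) (hW : LSW_stmt) (he : LS e) (hx : LS x) (hy : LS y) (hT : LS T)
    {r c τ d : α → ℕ} (hr : LS r) (hc : LS c) (hτ : LS τ) (hd : LS d) :
    LS (fun z => (prm c₀ (e z) (x z) (y z) (T z)).chk (r z) (c z) (τ z) (d z)) := by
  obtain ⟨-, -, -, h4, -, -, -, -, h9, -⟩ := h c₀ he hx hy hT
  have hs : LS (fun z => ∑ i ∈ range (2 ^ (prm c₀ (e z) (x z) (y z) (T z)).b),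
      (prm c₀ (e z) (x z) (y z) (T z)).bad (r z) (c z) (τ z) (d z) i) := by
    refine LS.sum_le (B := fun _ => 1)
      (f := fun z i => (prm c₀ (e z) (x z) (y z) (T z)).bad (r z) (c z) (τ z) (d z) i)
      ?_ h9 (LS.const 1) fun z i _ => bad_le _ _ _ _ _ _
    exact ls_bad (α := α × ℕ) h hW (e := fun z => e z.1) (x := fun z => x z.1)
      (y := fun z => y z.1) (T := fun z => T z.1) (r := fun z => r z.1) (c := fun z => c z.1)
      (τ := fun z => τ z.1) (d := fun z => d z.1) (i := fun z => z.2)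
      (by fun_prop) (by fun_prop) (by fun_prop) (by fun_prop) (by fun_prop) (by fun_prop)
      (by fun_prop) (by fun_prop) (by fun_prop)
  unfold Prm.chk
  exact LS.mul (LS.lt01 (LS.const 0) hc) (LS.mul (LS.lt01 (LS.const 0) hd)
    (LS.mul (LS.lt01 (LS.const 0) hτ) (LS.mul (LS.eq01 (h4 hd).1 (LS.add (h4 hc).1 hτ))
      (LS.eq01 hs (LS.const 0)))))

theorem ls_accN {v : α → ℕ} (hv : LS v) : LS (fun z => accN (v z)) := by
  unfold accN
  exact LS.mul (LS.lt01 (LS.const 1) hv) (LS.mod hv (LS.const 2))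

theorem ls_ac (h : LSP_stmt) (hW : LSW_stmt) (he : LS e) (hx : LS x) (hy : LS y) (hT : LS T)
    {r c τ : α → ℕ} (hr : LS r) (hc : LS c) (hτ : LS τ) :
    LS (fun z => (prm c₀ (e z) (x z) (y z) (T z)).ac (r z) (c z) (τ z)) := by
  obtain ⟨-, -, -, h4, -⟩ := h c₀ he hx hy hT
  unfold Prm.ac
  exact LS.mul (LS.lt01 (LS.const 0) hc) (LS.mul (LS.eq01 (LS.add (h4 hc).1 hτ) hr)
    (ls_accN (ls_sim hW he hx hy hT hc hτ)))

theorem ls_N (h : LSP_stmt) (he : LS e) (hx : LS x) (hy : LS y) (hT : LS T) :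
    LS (fun z => (prm c₀ (e z) (x z) (y z) (T z)).N) := by
  obtain ⟨-, -, -, -, -, -, h7, h8, -, -⟩ := h c₀ he hx hy hT
  exact LS.mul h8 h7

theorem ls_itr (h : LSP_stmt) (hW : LSW_stmt) (he : LS e) (hx : LS x) (hy : LS y) (hT : LS T)
    {r j : α → ℕ} (hr : LS r) (hj : LS j) :
    LS (fun z => itr ((prm c₀ (e z) (x z) (y z) (T z)).chk (r z))
      (prm c₀ (e z) (x z) (y z) (T z)).N (prm c₀ (e z) (x z) (y z) (T z)).cz (j z)) := by
  have hN := ls_N (c₀ := c₀) h he hx hy hT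
  obtain ⟨-, -, -, -, -, -, -, -, -, h10⟩ := h c₀ he hx hy hT
  refine Pool.Agent.Helper31.SusD.LS.itr
    (chk := fun z => (prm c₀ (e z) (x z) (y z) (T z)).chk (r z)) hN h10 hj ?_
    fun z c τ d => chk_le _ _ _ _ _
  exact ls_chk (α := α × ℕ × ℕ × ℕ) h hW (e := fun z => e z.1) (x := fun z => x z.1)
    (y := fun z => y z.1) (T := fun z => T z.1) (r := fun z => r z.1) (c := fun z => z.2.1)
    (τ := fun z => z.2.2.1) (d := fun z => z.2.2.2)
    (by fun_prop) (by fun_prop) (by fun_prop) (by fun_prop) (by fun_prop) (by fun_prop)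
    (by fun_prop) (by fun_prop)

theorem acc_le (P : Prm) (r : ℕ) : P.acc r ≤ P.cz * P.N := by
  unfold Prm.acc
  refine (sum_le_sum (g := fun _ => P.N) fun j _ => ?_).trans (by simp)
  refine (sum_le_sum (g := fun _ => 1) fun τ _ => ac_le _ _ _ _).trans (by simp)

theorem ls_acc (h : LSP_stmt) (hW : LSW_stmt) (he : LS e) (hx : LS x) (hy : LS y) (hT : LS T)
    {r : α → ℕ} (hr : LS r) :
    LS (fun z => (prm c₀ (e z) (x z) (y z) (T z)).acc (r z)) := by
  have hN := ls_N (c₀ := c₀) h he hx hy hT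
  obtain ⟨-, -, -, -, -, -, -, -, -, h10⟩ := h c₀ he hx hy hT
  unfold Prm.acc
  refine LS.sum_le (N := fun z => (prm c₀ (e z) (x z) (y z) (T z)).cz)
    (B := fun z => (prm c₀ (e z) (x z) (y z) (T z)).N)
    (f := fun z j => ∑ τ ∈ range (prm c₀ (e z) (x z) (y z) (T z)).N,
      (prm c₀ (e z) (x z) (y z) (T z)).ac (r z)
        (itr ((prm c₀ (e z) (x z) (y z) (T z)).chk (r z))
          (prm c₀ (e z) (x z) (y z) (T z)).N (prm c₀ (e z) (x z) (y z) (T z)).cz j) τ)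
    ?_ h10 hN fun z j _ => (sum_le_sum (g := fun _ => 1) fun τ _ => ac_le _ _ _ _).trans (by simp)
  have hN' := ls_N (α := α × ℕ) (c₀ := c₀) h (e := fun z => e z.1) (x := fun z => x z.1)
    (y := fun z => y z.1) (T := fun z => T z.1) (by fun_prop) (by fun_prop) (by fun_prop)
    (by fun_prop)
  refine LS.sum_le (α := α × ℕ)
    (N := fun z => (prm c₀ (e z.1) (x z.1) (y z.1) (T z.1)).N) (B := fun _ => 1)
    (f := fun z τ => (prm c₀ (e z.1) (x z.1) (y z.1) (T z.1)).ac (r z.1)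
        (itr ((prm c₀ (e z.1) (x z.1) (y z.1) (T z.1)).chk (r z.1))
          (prm c₀ (e z.1) (x z.1) (y z.1) (T z.1)).N
          (prm c₀ (e z.1) (x z.1) (y z.1) (T z.1)).cz z.2) τ)
    ?_ hN' (LS.const 1) fun z τ _ => ac_le _ _ _ _
  refine ls_ac (α := (α × ℕ) × ℕ) h hW (e := fun z => e z.1.1) (x := fun z => x z.1.1)
    (y := fun z => y z.1.1) (T := fun z => T z.1.1) (r := fun z => r z.1.1)
    (τ := fun z => z.2)
    (by fun_prop) (by fun_prop) (by fun_prop) (by fun_prop) (by fun_prop) ?_ (by fun_prop)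
  exact ls_itr (α := (α × ℕ) × ℕ) h hW (e := fun z => e z.1.1) (x := fun z => x z.1.1)
    (y := fun z => y z.1.1) (T := fun z => T z.1.1) (r := fun z => r z.1.1)
    (j := fun z => z.1.2)
    (by fun_prop) (by fun_prop) (by fun_prop) (by fun_prop) (by fun_prop) (by fun_prop)

theorem ls_accF (h : LSP_stmt) (hW : LSW_stmt) (he : LS e) (hx : LS x) (hy : LS y) (hT : LS T) :
    LS (fun z => accF c₀ (e z) (x z) (y z) (T z)) := by
  have hN := ls_N (c₀ := c₀) h he hx hy hT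
  obtain ⟨-, -, -, -, -, -, -, -, h9, h10⟩ := h c₀ he hx hy hT
  unfold accF
  refine LS.sum_le (N := fun z => 2 ^ (prm c₀ (e z) (x z) (y z) (T z)).b)
    (B := fun z => (prm c₀ (e z) (x z) (y z) (T z)).cz * (prm c₀ (e z) (x z) (y z) (T z)).N)
    (f := fun z r => (prm c₀ (e z) (x z) (y z) (T z)).acc r)
    ?_ h9 (LS.mul h10 hN) fun z r _ => acc_le _ _
  exact ls_acc (α := α × ℕ) h hW (e := fun z => e z.1) (x := fun z => x z.1)
    (y := fun z => y z.1) (T := fun z => T z.1) (r := fun z => z.2)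
    (by fun_prop) (by fun_prop) (by fun_prop) (by fun_prop) (by fun_prop)

end

/-- Packet HCS-LSK. -/
theorem lsk (h : LSP_stmt) (hW : LSW_stmt) : LSK_stmt := by
  intro c₀
  refine ⟨ls_accF h hW (e := fun z : ℕ × ℕ × ℕ × ℕ => z.1) (x := fun z => z.2.1)
    (y := fun z => z.2.2.1) (T := fun z => z.2.2.2) (by fun_prop) (by fun_prop) (by fun_prop)
    (by fun_prop), ?_⟩
  unfold NF
  fun_prop

end Pool.Agent.Helper83.HCS
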